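import Mathlib

namespace Pool.Agent.MP_435b2a_lc

/-- The shuffle of two words: all words `u₁ v₁ ⋯ u_k v_k` with `k ≥ 1`, `u = u₁ ⋯ u_k` and
`v = v₁ ⋯ v_k`. -/
def shuffleWords {α : Type} (u v : List α) : Set (List α) :=
  {w | ∃ l : List (List α × List α), l ≠ [] ∧ (l.map fun p => p.1).flatten = u ∧
    (l.map fun p => p.2).flatten = v ∧ (l.map fun p => p.1 ++ p.2).flatten = w}

/-- The shuffle of two languages. -/
def shuffle {α : Type} (L₁ L₂ : Language α) : Language α :=
  {w | ∃ u ∈ L₁, ∃ v ∈ L₂, w ∈ shuffleWords u v}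

/-- The finite description of a one-way one-counter machine over the alphabet `Fin k`: initial
state, list of final states, list of transitions. A transition is (state, letter read or `none`
for a move that reads nothing, whether the counter is zero, next state, change of the counter). -/
abbrev Machine (k : ℕ) : Type := ℕ × List ℕ × List (ℕ × Option (Fin k) × Bool × ℕ × ℤ)

/-- One move between configurations (state, unread input, counter value). -/
def Step {k : ℕ} (M : Machine k) (c c' : ℕ × List (Fin k) × ℕ) : Prop :=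
  ∃ (x : Option (Fin k)) (d : ℤ), (c.1, x, decide (c.2.2 = 0), c'.1, d) ∈ M.2.2 ∧
    c.2.1 = x.toList ++ c'.2.1 ∧ (c'.2.2 : ℤ) = c.2.2 + d

/-- The language accepted by final state, starting with the counter at zero. -/
def lang {k : ℕ} (M : Machine k) : Language (Fin k) :=
  {w | ∃ q ∈ M.2.1, ∃ n : ℕ, Relation.ReflTransGen (Step M) (M.1, w, 0) (q, [], n)}

/-- `M` is a deterministic finite automaton with one 1-reversal-bounded counter: each move changes
the counter by at most one, no two different transitions can apply to one configuration, and in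
every computation the counter never increases after it has decreased. -/
def IsDCM11 {k : ℕ} (M : Machine k) : Prop :=
  (∀ t ∈ M.2.2, |t.2.2.2.2| ≤ 1) ∧
  (∀ t ∈ M.2.2, ∀ t' ∈ M.2.2, t.1 = t'.1 → t.2.2.1 = t'.2.2.1 →
    (t.2.1 = t'.2.1 ∨ t.2.1 = none ∨ t'.2.1 = none) → t = t') ∧
  ∀ (w : List (Fin k)) (c₁ c₂ c₃ c₄ : ℕ × List (Fin k) × ℕ),
    Relation.ReflTransGen (Step M) (M.1, w, 0) c₁ → Step M c₁ c₂ →
    Relation.ReflTransGen (Step M) c₂ c₃ → Step M c₃ c₄ → c₂.2.2 < c₁.2.2 → c₄.2.2 ≤ c₃.2.2

end Pool.Agent.MP_435b2a_lc
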